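import Pool.Agent.Lib.MP_60675c_an.Curves

/-! No left-moving tangency for the two analytic boundary curves of a phase-lock area. -/

set_option autoImplicit false

open Filter Topology Set

namespace Pool.Agent.Results.MP_60675c_an.NoLeftTangency

/-- `φ` solves `φ' = - sin φ + B + A cos (ω t)` on the real line. -/
def Solves (ω B A : ℝ) (φ : ℝ → ℝ) : Prop :=
  ∀ t : ℝ, HasDerivAt φ (-Real.sin (φ t) + B + A * Real.cos (ω * t)) t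

/-- The level set `L_s(ω)` of the rotation number in the plane of points `(B, A)`. -/
def area (s : ℤ) (ω : ℝ) : Set (ℝ × ℝ) :=
  {p | ∀ φ : ℝ → ℝ, Solves ω p.1 p.2 φ →
    Tendsto (fun t : ℝ => φ t / (ω * t)) atTop (𝓝 (s : ℝ))}

/-- The curve `∂L_{s,σ}(ω)`: the points `(B, A)` where the solution starting at `σ π / 2`
advances by exactly `2 π s` in one period. -/
def curve (s : ℤ) (σ ω : ℝ) : Set (ℝ × ℝ) :=
  {p | ∃ φ : ℝ → ℝ, Solves ω p.1 p.2 φ ∧ φ 0 = σ * (Real.pi / 2) ∧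
    φ (2 * Real.pi / ω) = φ 0 + 2 * Real.pi * (s : ℝ)}

/-- The axis `Λ_l(ω)`. -/
def axis (l : ℕ) (ω : ℝ) : Set (ℝ × ℝ) := {p | p.1 = (l : ℝ) * ω}

/-- The point `(l ω₀, 2 μ ω₀)` lies on `C ω₀`, the germ of `C ω₀` there lies in `B ≥ l ω₀`, and
in some neighbourhood of the point `C ω` misses the axis for all `ω > ω₀` close to `ω₀`. -/
def LeftMoving (C : ℝ → Set (ℝ × ℝ)) (l : ℕ) (ω₀ μ : ℝ) : Prop :=
  ((l : ℝ) * ω₀, 2 * μ * ω₀) ∈ C ω₀ ∧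
  (∀ᶠ p in 𝓝 ((l : ℝ) * ω₀, 2 * μ * ω₀), p ∈ C ω₀ → (l : ℝ) * ω₀ ≤ p.1) ∧
  ∃ U ∈ 𝓝 ((l : ℝ) * ω₀, 2 * μ * ω₀), ∀ᶠ ω in 𝓝[>] ω₀, C ω ∩ axis l ω ∩ U = ∅

open Pool.Agent.Lib.MP_60675c_an in
lemma mem_curve {σ : ℝ} (hσ : σ = 1 ∨ σ = -1) : ∃ α, Sy α ∧ ∀ (s : ℤ) (ω : ℝ), 0 < ω →
    ∀ p, p ∈ curve s σ ω ↔ Ps (p.1 / ω) (p.2 / (2 * ω)) (1 / ω) α = s := by
  rcases hσ with h | h
  · exact ⟨0, Or.inl rfl, fun s ω hω p => curve_iff hω p.1 p.2 s (Or.inl ⟨h, rfl⟩)⟩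
  · exact ⟨_, Or.inr rfl, fun s ω hω p => curve_iff hω p.1 p.2 s (Or.inr ⟨h, rfl⟩)⟩

open Pool.Agent.Lib.MP_60675c_an in
theorem result :
    (∀ (s : ℤ) (ω : ℝ), 0 < ω → frontier (area s ω) = curve s 1 ω ∪ curve s (-1) ω) ∧
    (∀ (s : ℤ) (σ : ℝ), (σ = 1 ∨ σ = -1) → ∃ G : ℝ → ℝ → ℝ,
      ContinuousOn (fun q : ℝ × ℝ => G q.1 q.2) (Ioi 0 ×ˢ univ) ∧
      ∀ ω : ℝ, 0 < ω →
        AnalyticOnNhd ℝ (G ω) univ ∧ curve s σ ω = {p : ℝ × ℝ | p.1 = G ω p.2}) ∧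
    (∀ ω₀ : ℝ, 0 < ω₀ → ∀ (l s : ℕ) (μ : ℝ), 0 < μ → ∀ σ : ℝ, (σ = 1 ∨ σ = -1) →
      ¬ LeftMoving (curve (s : ℤ) σ) l ω₀ μ) := by
  refine ⟨fun s ω hω => ?_, fun s σ hσ => ?_, fun ω₀ hω l s μ hμ σ hσ => ?_⟩
  · ext p
    refine (frontier_iff hω s p).trans ?_
    rw [← or_iff_mn_mx, mem_union]
    exact or_congr (curve_iff hω p.1 p.2 s (Or.inl ⟨rfl, rfl⟩)).symm
      (curve_iff hω p.1 p.2 s (Or.inr ⟨rfl, rfl⟩)).symm
  · obtain ⟨α, -, h⟩ := mem_curve hσ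
    refine ⟨fun ω A => lev α s (A / (2 * ω)) (1 / ω) * ω, ?_, fun ω hω => ⟨fun A _ => ?_, ?_⟩⟩
    · refine ((lev_cont α s).comp_continuousOn
        (f := fun q : ℝ × ℝ => (q.2 / (2 * q.1), 1 / q.1)) ?_).mul continuousOn_fst
      exact (continuousOn_snd.div (by fun_prop) fun q hq =>
        mul_ne_zero two_ne_zero (ne_of_gt hq.1)).prodMk
        (continuousOn_const.div continuousOn_fst fun q hq => ne_of_gt hq.1)
    · exact (AnalyticAt.comp (f := fun A : ℝ => A / (2 * ω)) (lev_analytic α s (1 / ω) _)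
        (by fun_prop)).mul analyticAt_const
    · ext p
      rw [h s ω hω, lev_iff, div_eq_iff hω.ne']
      rfl
  · obtain ⟨α, hα, h⟩ := mem_curve hσ
    rintro ⟨h1, h2, U, hU, h3⟩
    refine final_curve hω hμ l s hα (curve (s : ℤ) σ)
      (fun ω hω p => by rw [h s ω hω, Int.cast_natCast]) h1 h2 hU ?_
    filter_upwards [h3] with ω b p b1 b2 b3
    exact (eq_empty_iff_forall_notMem.1 b p) ⟨⟨b1, b2⟩, b3⟩

end Pool.Agent.Results.MP_60675c_an.NoLeftTangency
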